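import Mathlib
import Pool.Agent.TH869.EVF.Fin1

set_option autoImplicit false

/-!
# Torsion in the class groups of all pure fields and of all Dickson fields of odd degree

`D_n(x, a)` is the Dickson polynomial of the first kind (`dickson 1 a n`), so that
`D_n(x, 0) = x ^ n` and `D_n(y + a / y, a) = y ^ n + (a / y) ^ n`.

Let `n ≥ 3` be odd and `ε > 0`.  There is a constant `C`, depending only on `n` and `ε`, such that
for all `l ≥ 1`, all integers `a, b` with `b² ≠ 4 aⁿ` (`a = 0` or `3 ∤ n`), and every number field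
`K = ℚ(α)` of degree `n` with `D_n(α, a) = b`,
`|Cl_K[l]| ≤ C lⁿ log(|a| + |b| + 2) |disc K| ^ (1/2 - 1/(l n (n-1)) + ε)`.
-/

namespace Pool.Agent.Results.MP_695920_nt.DicksonFields

open Polynomial NumberField

theorem result (n : ℕ) (hn : 3 ≤ n) (hodd : Odd n) (ε : ℝ) (hε : 0 < ε) :
    ∃ C : ℝ, 0 < C ∧ ∀ l : ℕ, 1 ≤ l → ∀ a b : ℤ, (a = 0 ∨ ¬ 3 ∣ n) → b ^ 2 ≠ 4 * a ^ n →
    ∀ (K : Type) [Field K] [NumberField K], Module.finrank ℚ K = n → ∀ α : K,
    IntermediateField.adjoin ℚ {α} = ⊤ → (dickson 1 (a : K) n).eval α = b →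
    (Nat.card {c : ClassGroup (𝓞 K) // c ^ l = 1} : ℝ) ≤
      C * l ^ n * Real.log (|(a : ℝ)| + |(b : ℝ)| + 2) *
        |(discr K : ℝ)| ^ (1 / 2 - 1 / (l * n * (n - 1)) + ε : ℝ) :=
  Pool.Agent.TH869.EVF.dickson_torsion n hn hodd ε hε

end Pool.Agent.Results.MP_695920_nt.DicksonFields
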