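import Pool.Agent.Q93.LT.Tor

/-!
# Torsion in the class groups of the number fields generated by roots of polynomials with few-digit coefficients

Let `K` be the field of degree `n` generated by a root of a monic integral polynomial of degree `n` whose coefficients arise from
arbitrary integers by changing a few digits at random positions. For almost all choices of the positions and all `l ≥ 1` the
`l`-torsion subgroup of the class group of `K` has at most `C l ^ n |disc K| ^ (1/2) / x ^ (1 - ε)` elements, for all `x` in a long
range with `(2 (150 x) ^ l) ^ (n (n - 1)) < |disc K|`; for `x = |disc K| ^ (1 / (l n (n - 1)) - ε)` this is the bound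
`|disc K| ^ (1/2 - 1 / (l n (n - 1)) + ε)`, without any hypothesis on the zeros of the zeta functions.
-/

set_option autoImplicit false

namespace Pool.Agent.Results.MP_695920_nt.FewDigitPolynomials

open Pool.Agent.Q235.FD
open scoped NumberField

/-- The field `K` is generated by a root of `X ^ n + m (n - 1) X ^ (n - 1) + ... + m 0`, and it has degree `n`
(so this polynomial is irreducible). -/
def GeneratedByRoot {n : ℕ} (m : Fin n → ℕ) (K : Type) [Field K] [NumberField K] : Prop :=
  Module.finrank ℚ K = n ∧ ∃ α : K, IntermediateField.adjoin ℚ {α} = ⊤ ∧ α ^ n + ∑ i : Fin n, (m i : K) * α ^ (i : ℕ) = 0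

/-- The number of the elements of the class group whose `l`-th power is trivial. -/
noncomputable def torsion (K : Type) [Field K] [NumberField K] (l : ℕ) : ℕ := Nat.card {c : ClassGroup (𝓞 K) // c ^ l = 1}

/-- Let `n ≥ 2`, `b ≥ 2`, `0 < ε ≤ 1` and `A` be given. There are `C > 0`, `c > 0` and `y₀` (the last two in the definition of
`ForAlmostAll`) with the following property: let `N i` (`i < n`) be integers with `K i` digits in base `b`, let `r i ≤ K i / 2`,
let `f i j` be a digit different from the digit number `j` of `N i`, and let `y ≥ y₀`. For all but a proportion of at most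
`1 / y ^ A` of the choices of `r i` digit positions for all `i`, the integers `m i` which arise from the `N i` if the digits at these
positions are changed according to `f` have the following property for all `x` with `y ≤ x` and `x ≤ exp (c r i)` for all `i`:
for every number field `K` of degree `n` generated by a root of the polynomial `X ^ n + m (n - 1) X ^ (n - 1) + ... + m 0` and
for all `l ≥ 1` with `(2 (150 x) ^ l) ^ (n (n - 1)) < |disc K|` the class group of `K` has at most
`C l ^ n |disc K| ^ (1/2) / x ^ (1 - ε)` elements whose `l`-th power is trivial. -/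
theorem result (n : ℕ) (hn : 2 ≤ n) (b : ℕ) (hb : 2 ≤ b) (ε : ℝ) (hε : 0 < ε) (hε1 : ε ≤ 1) (A : ℕ) :
    ∃ C : ℝ, 0 < C ∧ ForAlmostAll (Fin n) b A (fun (_ : Unit) (x : ℕ) (m : Fin n → ℕ) =>
      ∀ (K : Type) [Field K] [NumberField K], GeneratedByRoot m K → ∀ l : ℕ, 1 ≤ l →
        (2 * (150 * x) ^ l) ^ (n * (n - 1)) < (NumberField.discr K).natAbs →
        (torsion K l : ℝ) ≤ C * l ^ n * Real.sqrt |(NumberField.discr K : ℝ)| / (x : ℝ) ^ (1 - ε)) := by
  obtain ⟨C, hC, x₀, h⟩ := Pool.Agent.Q93.LT.torsion_le n hn hε hε1
  refine ⟨C, hC, (Pool.Agent.Q93.LT.many_roots n hn hb A).mono x₀ ?_⟩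
  intro _ x m hx hroots K _ _ hK l hl hD
  obtain ⟨hK1, α, hα, h0⟩ := hK
  exact h x hx m hroots l hl K hK1 α hα h0 hD

end Pool.Agent.Results.MP_695920_nt.FewDigitPolynomials
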