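import Pool.Agent.Q328.FQ.Core
import Pool.Agent.W627.LT.All

/-!
# Class group torsion of the real quadratic fields whose radicands arise from arbitrary integers by changing few digits

Take an arbitrary integer `N` with `K` digits in base `b` and change `r` of its digits, `C log K ≤ r ≤ K / 2`.  For all but a
proportion `K ^ (-B)` of the choices of the positions the number `m` obtained has the following property: for all multipliers
`1 ≤ u ≤ K ^ M` the number `u m` is not a square, and the class group of the real quadratic field `ℚ(√(u m))` of discriminant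
`D` has at most `D ^ (1/2 - 1/(2l)) (b ^ K) ^ ε` elements killed by `l`, for all `l ≥ 1` at once.  This is the bound which is
known under the generalized Riemann hypothesis (Ellenberg and Venkatesh).  The sets of radicands are extremely sparse: they have
`(K choose r)` elements, which may be as few as `exp (C' (log K) ^ 2)`, among the integers up to `X = b ^ K`.

Proof.  By the law of the starting library `TH894.NG` almost all `m` have the property that half of the primes up to a power of
`K` are such that `u m` is a nonzero square modulo `p`, and half such that it is not a square, uniformly in the multiplier `u`.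
The first half splits in the field, and the criterion of the starting library `W627.LT` (many small split primes) gives the bound.
-/

set_option autoImplicit false

namespace Pool.Agent.Results.MP_695920_nt.FewDigitRadicands

open Finset NumberField Filter
open scoped Classical
open Pool.Agent.Q328.FQ

/-- The number `d` is not a square, and in every quadratic number field `F` which contains a square root of `d` at most
`D ^ (1/2 - 1/(2l)) X ^ ε` ideal classes are killed by `l`, for all `l ≥ 1` (`D` is the discriminant of `F`). -/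
def TorsionBound (ε X : ℝ) (d : ℕ) : Prop :=
  ¬ IsSquare d ∧ ∀ (F : Type) [Field F] [NumberField F], Module.finrank ℚ F = 2 → (∃ x : F, x ^ 2 = (d : F)) →
    ∀ l : ℕ, 1 ≤ l → (Nat.card {c : ClassGroup (𝓞 F) // c ^ l = 1} : ℝ) ≤
      |(discr F : ℝ)| ^ (1 / 2 - 1 / (2 * l) : ℝ) * X ^ ε

/-- For all bases `b ≥ 2`, `ε > 0` and integers `B, M ≥ 0` there are `C > 0` and `K₀` such that for all `K ≥ K₀`, all `r` with
`C log K ≤ r ≤ K / 2`, every integer `0 ≤ N < b ^ K` and every prescription `f` of a new digit for every position: if the digits of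
`N` at `r` of its `K` positions are replaced, then for all but at most a proportion `1 / K ^ B` of the choices of the positions
the number `m` obtained satisfies `TorsionBound ε (b ^ K) (u m)` for all integers `1 ≤ u ≤ K ^ M`. -/
theorem result (b : ℕ) (hb : 2 ≤ b) (ε : ℝ) (hε : 0 < ε) (B M : ℕ) : ∃ C : ℝ, 0 < C ∧ ∃ K₀ : ℕ, ∀ K : ℕ, K₀ ≤ K →
    ∀ r : ℕ, C * Real.log K ≤ r → 2 * r ≤ K → ∀ N : ℕ, N < b ^ K → ∀ f : ℕ → ℕ, (∀ j, f j < b ∧ f j ≠ digit b j N) →
    (exceptions b K r N f (fun m => ∀ u : ℕ, 1 ≤ u → u ≤ K ^ M → TorsionBound ε ((b : ℝ) ^ K) (u * m)) : ℝ) ≤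
      1 / (K : ℝ) ^ B * (K.choose r : ℝ) := by
  obtain ⟨A0, hA0, hG1⟩ := Pool.Agent.W627.LT.sG ε hε
  obtain ⟨X0, hX0, hG⟩ := hG1 (max A0 2) (le_max_left _ _)
  obtain ⟨C, hC, K₁, h⟩ := half Pool.Agent.W255.LT.ltp b hb (max A0 2) (le_max_right _ _) B M
  have hb2 : (1 : ℝ) < b := by exact_mod_cast (by omega : 1 < b)
  have hev1 : ∀ᶠ K : ℕ in atTop, X0 ≤ (b : ℝ) ^ K :=
    (tendsto_pow_atTop_atTop_of_one_lt hb2).eventually (eventually_ge_atTop X0)
  have hev2 : ∀ᶠ K : ℕ in atTop, (K : ℝ) ^ M ≤ (b : ℝ) ^ K := by
    have h1 := isLittleO_pow_const_const_pow_of_one_lt (R := ℝ) M hb2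
    have h2 := h1.bound (by norm_num : (0 : ℝ) < 1)
    filter_upwards [h2] with K hK
    rw [Real.norm_of_nonneg (by positivity), Real.norm_of_nonneg (by positivity), one_mul] at hK
    exact hK
  obtain ⟨K₂, hK₂⟩ := eventually_atTop.1 (hev1.and hev2)
  refine ⟨C, hC, K₁ + K₂, fun K hK r hr hrK N hN f hf => ?_⟩
  refine le_trans ?_ (h K (by omega) r hr hrK N hN f hf)
  have hsub : exceptions b K r N f (fun m => ∀ u : ℕ, 1 ≤ u → u ≤ K ^ M → TorsionBound ε ((b : ℝ) ^ K) (u * m)) ≤
      exceptions b K r N f (fun m => ∀ u : ℕ, 1 ≤ u → u ≤ K ^ M → ¬ IsSquare (u * m) ∧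
        ((Y (max A0 2) b K : ℕ) : ℝ) / (20 * Real.log (Y (max A0 2) b K : ℕ)) ≤
          ((Pool.Agent.W627.LT.SQ (Y (max A0 2) b K) (u * m)).card : ℝ)) := by
    refine exceptions_mono ?_
    intro S _ hcon u hu1 huM
    obtain ⟨h1, h2⟩ := hcon u hu1 huM
    refine ⟨h1, ?_⟩
    have hpos : 0 < u * change b K N f S := by
      rcases Nat.eq_zero_or_pos (u * change b K N f S) with h0 | h0
      · exact absurd ⟨0, by rw [h0]⟩ h1
      · exact h0
    obtain ⟨hK1, hK2⟩ := hK₂ K (by omega)
    have hle : ((u * change b K N f S : ℕ) : ℝ) ≤ ((b : ℝ) ^ K) ^ 2 := by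
      have h3 : (u : ℝ) ≤ (b : ℝ) ^ K := by
        have : (u : ℝ) ≤ (K : ℝ) ^ M := by exact_mod_cast huM
        linarith
      have h4 : (change b K N f S : ℝ) ≤ (b : ℝ) ^ K := by
        exact_mod_cast (change_lt hb K N f (fun j => (hf j).1) S).le
      push_cast
      rw [sq]
      exact mul_le_mul h3 h4 (Nat.cast_nonneg _) (by positivity)
    have h5 := hG ((b : ℝ) ^ K) hK1 (u * change b K N f S) hpos h1 hle h2
    intro F _ _ hF hx l hl
    exact h5 F hF hx l hl
  exact_mod_cast hsub

end Pool.Agent.Results.MP_695920_nt.FewDigitRadicands
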