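import Pool.Agent.Q56.WL.Roots
import Pool.Agent.Q93.LT.Tor

/-!
# Torsion in the class groups of ALL number fields generated by roots of polynomials with coefficients in windows near powers

Let `K` be a field of degree `n` generated by a root of `X ^ n + m (n - 1) X ^ (n - 1) + ... + m 0`, where the `m l` are
arbitrary integers in the windows of length `y ^ V` around the real numbers `β l + ω l * i (μ l) ^ ex l`; here
`i = (i_1, ..., i_M)` runs through `{1, ..., X} ^ M`, the exponents `ex l > 1` are not integers, and coefficients which depend
on the same index have different exponents (for instance `M = 1`: all polynomials with coefficients close to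
`(i ^ (3/2), ..., i ^ (n + 1/2))`). For almost all index vectors, ALL these fields satisfy, for all `l ≥ 1`,
`|Cl_K[l]| ≤ C l ^ n |disc K| ^ (1/2) / x ^ (1 - ε)` for all `x` from `y` to `X ^ c` with
`(2 (150 x) ^ l) ^ (n (n - 1)) < |disc K|`: a power saving, for every `l`, over Minkowski's bound, without any hypothesis on the
zeros of the zeta functions.

Proof. By Ellenberg and Venkatesh many small primes with a prime ideal factor of degree one give such a bound (in the
deterministic form of `Pool.Agent.Q93.LT.torsion_le`). For the number of the primes `p ≤ x` modulo which the polynomial has a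
simple root, high moments over all integer points of the windows are compared with complete systems of residues
(`Pool.Agent.Q56.WL.gen`); the exponential sums over the real points are estimated by van der Corput's method.
-/

set_option autoImplicit false

namespace Pool.Agent.Results.MP_695920_nt.NearPowers

open Pool.Agent.Q56.WL
open scoped NumberField

/-- The field `K` is generated by a root of `X ^ n + m (n - 1) X ^ (n - 1) + ... + m 0`, and it has degree `n`
(so this polynomial is irreducible). -/
def GeneratedByRoot {n : ℕ} (m : Fin n → ℕ) (K : Type) [Field K] [NumberField K] : Prop :=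
  Module.finrank ℚ K = n ∧ ∃ α : K, IntermediateField.adjoin ℚ {α} = ⊤ ∧ α ^ n + ∑ i : Fin n, (m i : K) * α ^ (i : ℕ) = 0

/-- The number of the elements of the class group whose `l`-th power is trivial. -/
noncomputable def torsion (K : Type) [Field K] [NumberField K] (l : ℕ) : ℕ := Nat.card {c : ClassGroup (𝓞 K) // c ^ l = 1}

/-- For every number field `K` of degree `n` generated by a root of the polynomial with the coefficients `m` and for all
`l ≥ 1` with `(2 (150 x) ^ l) ^ (n (n - 1)) < |disc K|` the class group of `K` has at most
`C l ^ n |disc K| ^ (1/2) / x ^ (1 - ε)` elements whose `l`-th power is trivial. -/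
def FewTorsion (n : ℕ) (C ε : ℝ) (_ : Unit) (x : ℕ) (m : Fin n → ℕ) : Prop :=
  ∀ (K : Type) [Field K] [NumberField K], GeneratedByRoot m K → ∀ l : ℕ, 1 ≤ l →
    (2 * (150 * x) ^ l) ^ (n * (n - 1)) < (NumberField.discr K).natAbs →
    (torsion K l : ℝ) ≤ C * l ^ n * Real.sqrt |(NumberField.discr K : ℝ)| / (x : ℝ) ^ (1 - ε)

/-- **Torsion of the class groups for all coefficients in the windows.** Let `n ≥ 2`, `0 < ε ≤ 1`, `A`, `V` be given. There are
`C > 0` (depending on `n` and `ε` only) and `c > 0`, `y₀` (in the definition of `ForAlmostAll`) such that for all real `β`, all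
`X`, all `y ≥ y₀` and all index vectors in `{1, ..., X} ^ M`, up to a proportion of at most `1 / y ^ A`: for ALL integers `m l ≥ 0`
with `|m l - (β l + ω l * i (μ l) ^ ex l)| ≤ y ^ V` the assertion `FewTorsion` holds for all `x` with `y ≤ x ≤ X ^ c`. -/
theorem result (n : ℕ) (hn : 2 ≤ n) (ε : ℝ) (hε : 0 < ε) (hε1 : ε ≤ 1) : ∃ C : ℝ, 0 < C ∧
    ∀ {M : ℕ} (ex ω : Fin n → ℝ) (μ : Fin n → Fin M), Setting ex ω μ → ∀ A V : ℕ,
      ForAlmostAll ex ω μ A V (FewTorsion n C ε) := by
  obtain ⟨C, hC, x₀, h⟩ := Pool.Agent.Q93.LT.torsion_le n hn hε hε1
  refine ⟨C, hC, fun ex ω μ hset A V => (many_roots_near n hn hset A V).mono x₀ ?_⟩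
  intro _ x m hx hroots K _ _ hK l hl hD
  obtain ⟨hK1, α, hα, h0⟩ := hK
  exact h x hx m hroots l hl K hK1 α hα h0 hD

end Pool.Agent.Results.MP_695920_nt.NearPowers
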